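import Pool.Agent.helper29.JZ.Spec

set_option autoImplicit false

open Finset Polynomial Module

namespace Pool.Agent.helper52.JZ

open Pool.Agent.helper29.JZ Pool.Agent.helper97.FP FP97

theorem jz_EXC : EXC_stmt := by
  intro hCOL h h' x y M hx hy
  obtain ⟨_, _, hS, hH⟩ := hCOL h h' x y M hy
  obtain ⟨p, q, hpq, href⟩ := exists_ref hx (BB y M)
  rw [hS, hH] at href
  have ht : (HC x y M p q).card ≤ (PA M).card := card_le_card (filter_subset _ _)
  refine ⟨p, q, max p.natDegree q.natDegree + (PA M).card - (HC x y M p q).card, hpq, ?_, ?_⟩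
  · omega
  · omega

end Pool.Agent.helper52.JZ
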